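import Mathlib

set_option autoImplicit false

/-! Singer difference sets (for prime powers `q`): a finite abelian group with `q ^ 2 + q + 1` elements
and a subset of `q + 1` elements in which every non-zero element is a difference exactly once. -/

namespace Pool.Agent.H94EI

open Module

section

variable {F K : Type} [Field F] [Field K] [Algebra F K]

variable (F K) in
/-- The units of `K` coming from `F`. -/
def base : Subgroup Kˣ := (Units.map (algebraMap F K : F →* K)).range

theorem mem_base {g : Kˣ} : g ∈ base F K ↔ ∃ c : F, algebraMap F K c = g := by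
  constructor
  · rintro ⟨u, rfl⟩
    exact ⟨u, rfl⟩
  · rintro ⟨c, hc⟩
    have hc0 : c ≠ 0 := by
      rintro rfl
      rw [map_zero] at hc
      exact g.ne_zero hc.symm
    refine ⟨Units.mk0 c hc0, ?_⟩
    ext
    simpa using hc

/-- multiplication by a unit as a linear equivalence -/
def mulEquiv (g : Kˣ) : K ≃ₗ[F] K where
  toFun x := g * x
  invFun x := (g⁻¹ : Kˣ) * x
  map_add' x y := by ring
  map_smul' c x := by simp
  left_inv x := by simp
  right_inv x := by simp

/-- the elements `a` with `a H ⊆ H` -/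
def stab (H : Submodule F K) : Subalgebra F K where
  carrier := {a | ∀ h ∈ H, a * h ∈ H}
  mul_mem' := by
    intro a b ha hb h hh
    rw [mul_assoc]
    exact ha _ (hb _ hh)
  add_mem' := by
    intro a b ha hb h hh
    rw [add_mul]
    exact H.add_mem (ha _ hh) (hb _ hh)
  algebraMap_mem' := by
    intro c h hh
    rw [← Algebra.smul_def]
    exact H.smul_mem c hh

variable [FiniteDimensional F K]

theorem finrank_inf (h3 : finrank F K = 3) (H : Submodule F K) (hH : finrank F H = 2)
    (g : Kˣ) (hg : g ∉ base F K) :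
    finrank F (H ⊓ H.map (mulEquiv (F := F) g : K →ₗ[F] K) : Submodule F K) = 1 := by
  set H' := H.map (mulEquiv (F := F) g : K →ₗ[F] K) with hH'
  have hH'2 : finrank F H' = 2 := by
    rw [hH', LinearEquiv.finrank_map_eq, hH]
  have h1 := Submodule.finrank_sup_add_finrank_inf_eq H H'
  have h2 : finrank F (H ⊔ H' : Submodule F K) ≤ 3 := by
    rw [← h3]; exact Submodule.finrank_le _
  have h4 : finrank F (H ⊓ H' : Submodule F K) ≤ 2 := by
    rw [← hH]; exact Submodule.finrank_mono inf_le_left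
  have h5 : finrank F (H ⊓ H' : Submodule F K) ≠ 2 := by
    intro h
    have e1 : H ⊓ H' = H := Submodule.eq_of_le_of_finrank_eq inf_le_left (by rw [h, hH])
    have e2 : H ⊓ H' = H' := Submodule.eq_of_le_of_finrank_eq inf_le_right (by rw [h, hH'2])
    have e3 : H' = H := e2.symm.trans e1
    have hgs : (g : K) ∈ stab H := by
      intro x hx
      rw [← e3, hH']
      exact ⟨x, hx, rfl⟩
    have hs := (Subalgebra.isSimpleOrder_of_finrank_prime F K
      (by rw [h3]; exact Nat.prime_three)).eq_bot_or_eq_top (stab H)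
    rcases hs with hs | hs
    · rw [hs, Algebra.mem_bot] at hgs
      obtain ⟨c, hc⟩ := hgs
      exact hg (mem_base.mpr ⟨c, hc⟩)
    · have hne : H ≠ ⊥ := by
        rintro rfl
        rw [finrank_bot] at hH
        exact absurd hH (by norm_num)
      obtain ⟨x, hx, hx0⟩ := H.exists_mem_ne_zero_of_ne_bot hne
      have htop : H = ⊤ := by
        rw [eq_top_iff]
        intro y _
        have : y / x ∈ stab H := by rw [hs]; exact Algebra.mem_top
        have h' := this x hx
        rwa [div_mul_cancel₀ _ hx0] at h'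
      rw [htop, finrank_top, h3] at hH
      exact absurd hH (by norm_num)
  omega

end

section

variable {F K : Type} [Field F] [Field K] [Algebra F K] [FiniteDimensional F K]

/-- the difference property, multiplicatively -/
theorem exists_unique_pair (h3 : finrank F K = 3) (H : Submodule F K) (hH : finrank F H = 2)
    (x : Kˣ ⧸ base F K) (hx : x ≠ 1) :
    ∃! d : (Kˣ ⧸ base F K) × (Kˣ ⧸ base F K),
      (∃ u : Kˣ, (u : K) ∈ H ∧ (u : Kˣ ⧸ base F K) = d.1) ∧
      (∃ u : Kˣ, (u : K) ∈ H ∧ (u : Kˣ ⧸ base F K) = d.2) ∧ d.1 / d.2 = x := by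
  obtain ⟨g, rfl⟩ := QuotientGroup.mk_surjective x
  have hg : g ∉ base F K := fun h => hx ((QuotientGroup.eq_one_iff g).mpr h)
  have h1 := finrank_inf h3 H hH g hg
  obtain ⟨⟨v, hv⟩, hv0, hvu⟩ := finrank_eq_one_iff'.mp h1
  have hv0' : v ≠ 0 := fun h => hv0 (Subtype.ext h)
  obtain ⟨hvH, w, hwH, hwv⟩ := hv
  have hwv' : (g : K) * w = v := hwv
  have hw0 : w ≠ 0 := by
    rintro rfl
    rw [mul_zero] at hwv'
    exact hv0' hwv'.symm
  have key : (Units.mk0 v hv0' : Kˣ) = g * Units.mk0 w hw0 := by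
    ext; exact hwv'.symm
  refine ⟨((Units.mk0 v hv0' : Kˣ), (Units.mk0 w hw0 : Kˣ)), ⟨⟨_, hvH, rfl⟩, ⟨_, hwH, rfl⟩, ?_⟩, ?_⟩
  · show ((Units.mk0 v hv0' : Kˣ) : Kˣ ⧸ base F K) / ((Units.mk0 w hw0 : Kˣ) : Kˣ ⧸ base F K) = _
    rw [key, QuotientGroup.mk_mul, mul_div_cancel_right]
  · rintro ⟨d1, d2⟩ ⟨⟨a, haH, ha⟩, ⟨b, hbH, hb⟩, hab⟩
    simp only at ha hb hab
    subst ha hb
    rw [← QuotientGroup.mk_div] at hab
    have h2 := QuotientGroup.eq.mp hab
    obtain ⟨c, hc⟩ := mem_base.mp h2
    -- (a / b)⁻¹ * g = c, so g * b = c * a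
    have h4 : (g : K) * b = c • (a : K) := by
      rw [Algebra.smul_def, hc]
      simp only [Units.val_mul, Units.val_inv_eq_inv_val, Units.val_div_eq_div_val]
      have ha0 : (a : K) ≠ 0 := a.ne_zero
      have hb0 : (b : K) ≠ 0 := b.ne_zero
      field_simp
    have hc0 : c ≠ 0 := by
      rintro rfl
      rw [zero_smul] at h4
      exact (mul_ne_zero g.ne_zero b.ne_zero) h4
    have hmem : c • (a : K) ∈ (H ⊓ H.map (mulEquiv (F := F) g : K →ₗ[F] K) : Submodule F K) :=
      ⟨H.smul_mem _ haH, ⟨b, hbH, h4⟩⟩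
    obtain ⟨t, ht⟩ := hvu ⟨_, hmem⟩
    have ht' : t • v = c • (a : K) := congrArg Subtype.val ht
    have ht0 : t ≠ 0 := by
      rintro rfl
      rw [zero_smul] at ht'
      exact smul_ne_zero hc0 a.ne_zero ht'.symm
    have ea : (a : Kˣ ⧸ base F K) = (Units.mk0 v hv0' : Kˣ) := by
      rw [QuotientGroup.eq, mem_base]
      refine ⟨t⁻¹ * c, ?_⟩
      rw [map_mul, map_inv₀]
      rw [Algebra.smul_def, Algebra.smul_def] at ht'
      simp only [Units.val_mul, Units.val_inv_eq_inv_val, Units.val_mk0]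
      have ha0 : (a : K) ≠ 0 := a.ne_zero
      have ht0' : algebraMap F K t ≠ 0 := by simpa using ht0
      field_simp
      linear_combination -ht'
    have eb : (b : Kˣ ⧸ base F K) = (Units.mk0 w hw0 : Kˣ) := by
      have e1 : (a : Kˣ ⧸ base F K) = (g : Kˣ ⧸ base F K) * b := by
        rw [← hab, QuotientGroup.mk_div, div_mul_cancel]
      have e2 : ((Units.mk0 v hv0' : Kˣ) : Kˣ ⧸ base F K) =
          (g : Kˣ ⧸ base F K) * (Units.mk0 w hw0 : Kˣ) := by
        rw [key, QuotientGroup.mk_mul]
      rw [e1, e2] at ea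
      have e4 := congrArg (fun z => (g : Kˣ ⧸ base F K)⁻¹ * z) ea
      simpa only [inv_mul_cancel_left] using e4
    rw [ea, eb]

end

/-- Singer difference sets. -/
theorem exists_diff (q : ℕ) (hq : IsPrimePow q) :
    ∃ (G : Type) (_ : AddCommGroup G) (_ : Fintype G) (_ : DecidableEq G) (D : Finset G),
      Fintype.card G = q ^ 2 + q + 1 ∧ D.card = q + 1 ∧
      ∀ x : G, x ≠ 0 → ((D ×ˢ D).filter (fun d => d.1 - d.2 = x)).card = 1 := by
  classical
  obtain ⟨p, k, hp, hk, hpk⟩ := (isPrimePow_nat_iff q).mp hq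
  have : Fact p.Prime := ⟨hp⟩
  let F := GaloisField p k
  have : Finite F := inferInstanceAs (Finite (GaloisField p k))
  let K := FiniteField.Extension F p 3
  have h3 : finrank F K = 3 := FiniteField.finrank_extension F p 3
  have hcF : Nat.card F = q := by
    rw [← hpk]
    exact GaloisField.card p k hk.ne'
  have hcK : Nat.card K = q ^ 3 := by
    rw [← hcF]
    exact FiniteField.natCard_extension F p 3
  have hq1 : 1 < q := hq.one_lt
  have : FiniteDimensional F K := FiniteDimensional.of_finrank_pos (by rw [h3]; norm_num)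
  have : Fintype K := Fintype.ofFinite K
  let Q := Kˣ ⧸ base F K
  have : Fintype Q := Fintype.ofFinite Q
  -- a plane
  obtain ⟨H, hH⟩ : ∃ H : Submodule F K, finrank F H = 2 := by
    have hs : Function.Surjective (Algebra.trace F K) := Algebra.trace_surjective F K
    refine ⟨LinearMap.ker (Algebra.trace F K), ?_⟩
    have := LinearMap.finrank_range_add_finrank_ker (Algebra.trace F K)
    rw [LinearMap.range_eq_top.mpr hs, finrank_top, finrank_self, h3] at this
    omega
  let D : Finset Q := Finset.univ.filter (fun d => ∃ u : Kˣ, (u : K) ∈ H ∧ (u : Q) = d)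
  have hD : ∀ d : Q, d ∈ D ↔ ∃ u : Kˣ, (u : K) ∈ H ∧ (u : Q) = d := fun d => by simp [D]
  have hone : ∀ x : Q, x ≠ 1 → ((D ×ˢ D).filter (fun d => d.1 / d.2 = x)).card = 1 := by
    intro x hx
    rw [Finset.card_eq_one]
    obtain ⟨d, ⟨h1, h2, h4⟩, hu⟩ := exists_unique_pair h3 H hH x hx
    refine ⟨d, ?_⟩
    ext e
    simp only [Finset.mem_filter, Finset.mem_product, Finset.mem_singleton, hD]
    constructor
    · rintro ⟨⟨a, b⟩, c⟩
      exact hu e ⟨a, b, c⟩
    · rintro rfl
      exact ⟨⟨h1, h2⟩, h4⟩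
  have hcardQ : Fintype.card Q = q ^ 2 + q + 1 := by
    have e1 : Nat.card Kˣ = q ^ 3 - 1 := by
      rw [Nat.card_units, hcK]
    have e2 : Nat.card (base F K) = q - 1 := by
      have : Function.Injective (Units.map (algebraMap F K : F →* K)) :=
        Units.map_injective (algebraMap F K).injective
      have e := Nat.card_congr (MonoidHom.ofInjective this).toEquiv
      rw [show Nat.card (base F K) = Nat.card (Units.map (algebraMap F K : F →* K)).range from rfl,
        ← e, Nat.card_units, hcF]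
    have e3 := Subgroup.card_eq_card_quotient_mul_card_subgroup (base F K)
    rw [e1, e2] at e3
    rw [← Nat.card_eq_fintype_card]
    have hq2 : 0 < q - 1 := Nat.sub_pos_of_lt hq1
    obtain ⟨m, hm⟩ : ∃ m, q = m + 1 := ⟨q - 1, by omega⟩
    have e4 : q ^ 3 - 1 = (q ^ 2 + q + 1) * (q - 1) := by
      rw [hm]
      simp only [Nat.add_sub_cancel]
      have : (m + 1) ^ 3 = ((m + 1) ^ 2 + (m + 1) + 1) * m + 1 := by ring
      rw [this, Nat.add_sub_cancel]
    rw [e4] at e3
    exact (Nat.eq_of_mul_eq_mul_right hq2 e3).symm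
  have hcardD : D.card = q + 1 := by
    have e1 : (D ×ˢ D).card = ∑ x : Q, ((D ×ˢ D).filter (fun d => d.1 / d.2 = x)).card :=
      Finset.card_eq_sum_card_fiberwise (fun _ _ => Finset.mem_coe.mpr (Finset.mem_univ _))
    have e2 : ((D ×ˢ D).filter (fun d => d.1 / d.2 = 1)).card = D.card := by
      have : (D ×ˢ D).filter (fun d => d.1 / d.2 = 1) = D.image (fun d => (d, d)) := by
        ext ⟨a, b⟩
        simp only [Finset.mem_filter, Finset.mem_product, Finset.mem_image, Prod.mk.injEq,
          div_eq_one]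
        constructor
        · rintro ⟨⟨h1, _⟩, h2⟩
          exact ⟨a, h1, rfl, h2⟩
        · rintro ⟨c, hc, rfl, rfl⟩
          exact ⟨⟨hc, hc⟩, rfl⟩
      rw [this, Finset.card_image_of_injective _ (fun a b h => (Prod.mk.inj h).1)]
    rw [Finset.card_product, ← Finset.add_sum_erase _ _ (Finset.mem_univ (1 : Q)), e2,
      Finset.sum_congr rfl (fun x hx => hone x (Finset.ne_of_mem_erase hx)),
      Finset.sum_const, Finset.card_erase_of_mem (Finset.mem_univ _), Finset.card_univ, hcardQ] at e1
    simp only [smul_eq_mul, mul_one, Nat.add_sub_cancel] at e1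
    have hq0 : 0 < q := by omega
    rcases lt_trichotomy D.card (q + 1) with h | h | h
    · have h5 : D.card * D.card ≤ q * q := Nat.mul_le_mul (by omega) (by omega)
      nlinarith
    · exact h
    · have h5 : (q + 2) * D.card ≤ D.card * D.card := Nat.mul_le_mul_right _ (by omega)
      have h6 : (q + 2) * (q + 1) ≤ (q + 1) * D.card := by nlinarith
      nlinarith
  refine ⟨Additive Q, inferInstance, inferInstanceAs (Fintype Q), inferInstance,
    D.map (Additive.ofMul (α := Q)).toEmbedding, ?_, ?_, ?_⟩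
  · rw [← hcardQ]; rfl
  · rw [Finset.card_map, hcardD]
  · intro x hx
    have hx' : Additive.toMul x ≠ 1 := fun h => hx (by simpa using h)
    rw [← hone _ hx']
    refine Finset.card_bij' (fun d _ => (Additive.toMul d.1, Additive.toMul d.2))
      (fun d _ => (Additive.ofMul d.1, Additive.ofMul d.2)) ?_ ?_ ?_ ?_
    · rintro ⟨a, b⟩ h
      simp only [Finset.mem_filter, Finset.mem_product, Finset.mem_map,
        Equiv.coe_toEmbedding] at h ⊢
      obtain ⟨⟨⟨a', ha', rfl⟩, ⟨b', hb', rfl⟩⟩, rfl⟩ := h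
      exact ⟨⟨ha', hb'⟩, rfl⟩
    · rintro ⟨a, b⟩ h
      simp only [Finset.mem_filter, Finset.mem_product, Finset.mem_map,
        Equiv.coe_toEmbedding] at h ⊢
      obtain ⟨⟨ha, hb⟩, h⟩ := h
      refine ⟨⟨⟨a, ha, rfl⟩, ⟨b, hb, rfl⟩⟩, ?_⟩
      rw [← ofMul_div, h]; rfl
    · intros; rfl
    · intros; rfl

end Pool.Agent.H94EI
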