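import Pool.Agent.H94EI.Lines
import Pool.Agent.H94EI.Diff

set_option autoImplicit false

/-! `q ^ 2 + q + 1` equiangular lines in `ℂ ^ (q + 1)` from Singer difference sets. -/

namespace Pool.Agent.H94EI

open Module Pool.Agent.H32Iso

section

variable {G : Type} [AddCommGroup G] [Fintype G] [DecidableEq G]

theorem conj_char (χ : AddChar G ℂ) (a : G) : (starRingEnd ℂ) (χ a) = χ (-a) :=
  (AddChar.map_neg_eq_conj χ a).symm

theorem sum_pairs (D : Finset G) (η : AddChar G ℂ) (hη : η ≠ 0)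
    (h : ∀ x : G, x ≠ 0 → ((D ×ˢ D).filter (fun d => d.1 - d.2 = x)).card = 1) :
    (∑ a ∈ D, ∑ b ∈ D, η (a - b)) = (D.card : ℂ) - 1 := by
  have e1 : (∑ a ∈ D, ∑ b ∈ D, η (a - b)) = ∑ d ∈ D ×ˢ D, η (d.1 - d.2) :=
    (Finset.sum_product D D (fun d => η (d.1 - d.2))).symm
  have e2 : ∑ d ∈ D ×ˢ D, η (d.1 - d.2) =
      ∑ x : G, ∑ d ∈ (D ×ˢ D).filter (fun d => d.1 - d.2 = x), η (d.1 - d.2) :=
    (Finset.sum_fiberwise_of_maps_to (fun _ _ => Finset.mem_univ _) _).symm
  have e3 : ∀ x : G, ∑ d ∈ (D ×ˢ D).filter (fun d => d.1 - d.2 = x), η (d.1 - d.2) =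
      (((D ×ˢ D).filter (fun d => d.1 - d.2 = x)).card : ℂ) * η x := by
    intro x
    rw [Finset.sum_congr rfl (fun d hd => by rw [(Finset.mem_filter.mp hd).2]), Finset.sum_const,
      nsmul_eq_mul]
  have e4 : ((D ×ˢ D).filter (fun d => d.1 - d.2 = (0 : G))).card = D.card := by
    have : (D ×ˢ D).filter (fun d => d.1 - d.2 = (0 : G)) = D.image (fun d => (d, d)) := by
      ext ⟨a, b⟩
      simp only [Finset.mem_filter, Finset.mem_product, Finset.mem_image, Prod.mk.injEq,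
        sub_eq_zero]
      constructor
      · rintro ⟨⟨h1, _⟩, h2⟩
        exact ⟨a, h1, rfl, h2⟩
      · rintro ⟨c, hc, rfl, rfl⟩
        exact ⟨⟨hc, hc⟩, rfl⟩
    rw [this, Finset.card_image_of_injective _ (fun a b h => (Prod.mk.inj h).1)]
  have e5 : ∑ x : G, η x = 0 := AddChar.sum_eq_zero_iff_ne_zero.mpr hη
  rw [e1, e2, Finset.sum_congr rfl (fun x _ => e3 x)]
  rw [← Finset.add_sum_erase _ _ (Finset.mem_univ (0 : G))] at e5 ⊢
  rw [AddChar.map_zero_eq_one] at e5 ⊢
  rw [e4, mul_one, Finset.sum_congr rfl (fun x hx => by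
    rw [h x (Finset.ne_of_mem_erase hx), Nat.cast_one, one_mul])]
  linear_combination e5

end

theorem singer (q : ℕ) (hq : IsPrimePow q) : q ^ 2 + q + 1 ∈ sizes ℂ 1 (q + 1) := by
  classical
  obtain ⟨G, i1, i2, i3, D, hG, hD, hone⟩ := exists_diff q hq
  have hcard : Fintype.card (AddChar G ℂ) = q ^ 2 + q + 1 := by
    rw [AddChar.card_eq, hG]
  have hcardD : Fintype.card D = q + 1 := by rw [Fintype.card_coe, hD]
  rw [← hcard, ← hcardD]
  have hq0 : (0 : ℝ) ≤ q := Nat.cast_nonneg _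
  refine lines_mem_sizes (ι := AddChar G ℂ) (κ := D) (fun χ a => χ a) ((q : ℝ) + 1) q
    (by positivity) hq0 (by nlinarith) ?_ ?_ ?_
  · intro χ
    have : ∀ a : D, Complex.normSq (χ a) = 1 := fun a => by
      rw [Complex.normSq_eq_norm_sq, AddChar.norm_apply, one_pow]
    rw [Finset.sum_congr rfl (fun a _ => this a)]
    simp [hD]
  · intro χ ψ hne
    set η : AddChar G ℂ := ψ - χ with hη
    have hη0 : η ≠ 0 := fun h => hne (sub_eq_zero.mp h).symm
    have e1 : herm (fun a : D => χ a) (fun a : D => ψ a) = ∑ a ∈ D, η a := by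
      rw [← Finset.sum_coe_sort D (fun a => η a)]
      simp only [herm]
      refine Finset.sum_congr rfl fun a _ => ?_
      rw [hη, AddChar.sub_apply, conj_char, mul_comm]
    have e2 : ((Complex.normSq (herm (fun a : D => χ a) (fun a : D => ψ a)) : ℝ) : ℂ) = (q : ℂ) := by
      rw [e1, ← Complex.mul_conj, map_sum, Finset.sum_mul_sum]
      have : ∀ a ∈ D, ∀ b ∈ D, η a * (starRingEnd ℂ) (η b) = η (a - b) := by
        intro a _ b _
        rw [conj_char, ← AddChar.map_add_eq_mul, sub_eq_add_neg]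
      rw [Finset.sum_congr rfl (fun a ha => Finset.sum_congr rfl (fun b hb => this a ha b hb)),
        sum_pairs D η hη0 hone, hD]
      push_cast
      ring
    exact_mod_cast e2
  · intro w hw
    funext d
    have e1 : ∑ χ : AddChar G ℂ, χ d * herm (fun a : D => χ a) w = 0 :=
      Finset.sum_eq_zero fun χ _ => by rw [hw χ, mul_zero]
    have e2 : ∑ χ : AddChar G ℂ, χ d * herm (fun a : D => χ a) w =
        ∑ a : D, (∑ χ : AddChar G ℂ, χ ((d : G) - a)) * w a := by
      simp only [herm, Finset.mul_sum]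
      rw [Finset.sum_comm]
      refine Finset.sum_congr rfl fun a _ => ?_
      rw [Finset.sum_mul]
      refine Finset.sum_congr rfl fun χ _ => ?_
      rw [conj_char, ← mul_assoc, ← AddChar.map_add_eq_mul, sub_eq_add_neg]
    have e3 : ∀ a : D, (∑ χ : AddChar G ℂ, χ ((d : G) - a)) * w a =
        if a = d then (Fintype.card G : ℂ) * w d else 0 := by
      intro a
      rw [AddChar.sum_apply_eq_ite]
      by_cases h : a = d
      · subst h; simp
      · have : (d : G) - a ≠ 0 := fun h' => h (Subtype.ext (sub_eq_zero.mp h').symm)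
        simp [h, this]
    rw [e2, Finset.sum_congr rfl (fun a _ => e3 a), Finset.sum_ite_eq' Finset.univ d,
      if_pos (Finset.mem_univ _)] at e1
    have hG0 : (Fintype.card G : ℂ) ≠ 0 := Nat.cast_ne_zero.mpr Fintype.card_ne_zero
    exact (mul_eq_zero.mp e1).resolve_left hG0

theorem singer_real (q : ℕ) (hq : IsPrimePow q) : q ^ 2 + q + 1 ∈ sizes ℝ 2 (2 * (q + 1)) :=
  realify 1 (q + 1) (singer q hq)

/-- The asymptotic lower bound for planes in real space. -/
theorem planes_lower (ε : ℝ) (hε : 0 < ε) (r₀ : ℕ) :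
    ∃ r ≥ r₀, ∃ p ∈ sizes ℝ 2 r, (1 / 4 - ε) * (r : ℝ) ^ 2 ≤ p := by
  obtain ⟨m, hm⟩ := exists_nat_gt (1 / ε)
  obtain ⟨q, hq1, hq⟩ := Nat.exists_infinite_primes (max m r₀)
  refine ⟨2 * (q + 1), by have := le_trans (le_max_right m r₀) hq1; omega, q ^ 2 + q + 1,
    singer_real q hq.isPrimePow, ?_⟩
  have h1 : (m : ℝ) ≤ q := by exact_mod_cast le_trans (le_max_left m r₀) hq1
  have h2 : 1 < ε * ((q : ℝ) + 1) := by
    have := (div_lt_iff₀' hε).mp hm
    nlinarith
  push_cast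
  have hq0 : (0 : ℝ) ≤ q := Nat.cast_nonneg _
  nlinarith

end Pool.Agent.H94EI
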