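import Pool.Agent.H32Iso.Defs

set_option autoImplicit false

/-! Equiangular lines in complex space as members of `sizes ℂ 1 d`, and passing from complex
subspaces to real ones. -/

namespace Pool.Agent.H94EI

open Module Pool.Agent.H32Iso

section vectors

variable {κ : Type} [Fintype κ]

/-- the standard Hermitian form, antilinear in the first variable -/
def herm (x y : κ → ℂ) : ℂ := ∑ a, (starRingEnd ℂ) (x a) * y a

theorem herm_sub_left (x x' y : κ → ℂ) : herm (fun a => x a - x' a) y = herm x y - herm x' y := by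
  simp [herm, sub_mul, Finset.sum_sub_distrib]

theorem herm_smul_right (c : ℂ) (x y : κ → ℂ) : herm x (fun a => c * y a) = c * herm x y := by
  simp only [herm, Finset.mul_sum]
  exact Finset.sum_congr rfl fun a _ => by ring

theorem herm_smul_left (c : ℂ) (x y : κ → ℂ) :
    herm (fun a => c * x a) y = (starRingEnd ℂ) c * herm x y := by
  simp only [herm, Finset.mul_sum, map_mul]
  exact Finset.sum_congr rfl fun a _ => by ring

theorem conj_herm (x y : κ → ℂ) : (starRingEnd ℂ) (herm x y) = herm y x := by
  simp only [herm, map_sum, map_mul, Complex.conj_conj]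
  exact Finset.sum_congr rfl fun a _ => mul_comm _ _

theorem herm_self (x : κ → ℂ) : herm x x = ((∑ a, Complex.normSq (x a) : ℝ) : ℂ) := by
  simp only [herm, Complex.ofReal_sum]
  exact Finset.sum_congr rfl fun a _ => by rw [Complex.normSq_eq_conj_mul_self]

end vectors

theorem inner_Sp {d : ℕ} (x y : Sp ℂ d) : inner ℝ x y = (herm (fun a => x a) (fun a => y a)).re := by
  simp only [PiLp.inner_apply, herm, Complex.re_sum]
  exact Finset.sum_congr rfl fun a _ => by rw [Complex.inner, mul_comm]

/-- `p` equiangular lines spanning `ℂ ^ d`, given by vectors, in the form of `Fin` families. -/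
theorem lines_aux {p d : ℕ} (v : Fin p → Fin d → ℂ) (N M : ℝ) (hN : 0 < N) (hM0 : 0 ≤ M)
    (hM : M < N ^ 2) (hnorm : ∀ i, ∑ a, Complex.normSq (v i a) = N)
    (hinner : ∀ i j, i ≠ j → Complex.normSq (herm (v i) (v j)) = M)
    (hspan : ∀ w : Fin d → ℂ, (∀ i, herm (v i) w = 0) → w = 0) :
    p ∈ sizes ℂ 1 d := by
  have hN' : (N : ℂ) ≠ 0 := by exact_mod_cast hN.ne'
  have hself : ∀ i, herm (v i) (v i) = (N : ℂ) := fun i => by rw [herm_self, hnorm]
  have hv0 : ∀ i, v i ≠ 0 := by
    intro i h
    have := hnorm i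
    rw [h] at this
    simp at this
    exact hN.ne this
  have hP : ∀ i (x y : Sp ℂ d), IsProj (Submodule.span ℂ {(WithLp.toLp 2 (v i) : Sp ℂ d)}) x y →
      y = (herm (v i) (fun a => x a) / N) • (WithLp.toLp 2 (v i) : Sp ℂ d) := by
    rintro i x y ⟨hy, hxy⟩
    obtain ⟨c, rfl⟩ := Submodule.mem_span_singleton.mp hy
    set u : Sp ℂ d := WithLp.toLp 2 (v i) with hu
    have hua : ∀ a, u a = v i a := fun a => rfl
    have h1 : (herm (fun a => (x - c • u) a) (v i)).re = 0 := by
      have := hxy u (Submodule.mem_span_singleton_self _)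
      rw [inner_Sp] at this
      exact this
    have h2 : (herm (fun a => (x - c • u) a) (v i)).im = 0 := by
      have := hxy (Complex.I • u) (Submodule.smul_mem _ _ (Submodule.mem_span_singleton_self _))
      rw [inner_Sp] at this
      have e : herm (fun a => (x - c • u) a) (fun a => (Complex.I • u) a) =
          Complex.I * herm (fun a => (x - c • u) a) (v i) := herm_smul_right _ _ _
      rw [e] at this
      simpa using this
    have h3 : herm (fun a => (x - c • u) a) (v i) = 0 := Complex.ext h1 h2
    have h4 : herm (fun a => (x - c • u) a) (v i) =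
        herm (fun a => x a) (v i) - (starRingEnd ℂ) c * N := by
      have := herm_sub_left (fun a => x a) (fun a => c * v i a) (v i)
      rw [herm_smul_left, hself] at this
      exact this
    rw [h4, sub_eq_zero] at h3
    have h5 : herm (v i) (fun a => x a) = c * N := by
      have := congrArg (starRingEnd ℂ) h3
      rw [conj_herm, map_mul, Complex.conj_conj, Complex.conj_ofReal] at this
      exact this
    rw [h5, mul_div_cancel_right₀ _ hN']
  refine ⟨M / N ^ 2, fun i => Submodule.span ℂ {(WithLp.toLp 2 (v i) : Sp ℂ d)}, ?_, ?_, ?_, ?_, ?_⟩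
  · positivity
  · rw [div_lt_one (by positivity)]; exact hM
  · intro i
    rw [finrank_span_singleton]
    intro h
    apply hv0 i
    funext a
    have := congrArg (fun z : Sp ℂ d => z a) h
    simpa using this
  · -- spanning
    unfold Spans
    rw [← Submodule.span_iUnion]
    have hset : (⋃ i, {(WithLp.toLp 2 (v i) : Sp ℂ d)}) = Set.range
        (fun i => (WithLp.toLp 2 (v i) : Sp ℂ d)) := by
      ext; simp [eq_comm]
    rw [hset]
    by_contra hne
    -- a nonzero vector orthogonal to the span
    set T : Submodule ℂ (Sp ℂ d) := Submodule.span ℂ (Set.range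
      (fun i => (WithLp.toLp 2 (v i) : Sp ℂ d))) with hT
    have hTr : T.restrictScalars ℝ ≠ ⊤ := by
      intro h
      exact hne (Submodule.restrictScalars_eq_top_iff ℝ ℂ _ |>.mp h)
    obtain ⟨w, hw, hw0⟩ := (Submodule.ne_bot_iff _).mp
      (fun h => hTr ((Submodule.orthogonal_eq_bot_iff (K := T.restrictScalars ℝ)).mp h))
    apply hw0
    have hall : (fun a => w a) = (0 : Fin d → ℂ) := by
      apply hspan
      intro i
      have hu : (WithLp.toLp 2 (v i) : Sp ℂ d) ∈ T := Submodule.subset_span ⟨i, rfl⟩
      have h1 := hw _ hu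
      have h2 := hw (Complex.I • (WithLp.toLp 2 (v i) : Sp ℂ d)) (T.smul_mem _ hu)
      rw [inner_Sp] at h1 h2
      have e : herm (fun a => (Complex.I • (WithLp.toLp 2 (v i) : Sp ℂ d)) a) (fun a => w a) =
          (starRingEnd ℂ) Complex.I * herm (v i) (fun a => w a) := herm_smul_left _ _ _
      rw [e] at h2
      have h1' : (herm (v i) (fun a => w a)).re = 0 := h1
      have h2' : (herm (v i) (fun a => w a)).im = 0 := by simpa using h2
      exact Complex.ext h1' h2'
    ext a
    exact congrFun hall a
  · intro i j hij x y z w h1 h2 h3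
    have e1 := hP i x y h1
    have e2 := hP j y z h2
    have e3 := hP i z w h3
    set a := herm (v i) (fun a => x a) / N with ha
    have f1 : herm (v j) (fun b => y b) = a * herm (v j) (v i) := by
      rw [e1]; exact herm_smul_right _ _ _
    have f2 : herm (v i) (fun b => z b) = (a * herm (v j) (v i) / N) * herm (v i) (v j) := by
      rw [e2, f1]; exact herm_smul_right _ _ _
    have f3 : herm (v j) (v i) * herm (v i) (v j) = (M : ℂ) := by
      rw [← conj_herm (v i) (v j), ← Complex.normSq_eq_conj_mul_self, hinner i j hij]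
    rw [e3, e1, f2]
    have f4 : a * herm (v j) (v i) / ↑N * herm (v i) (v j) / ↑N = ((M / N ^ 2 : ℝ) : ℂ) * a := by
      push_cast
      rw [← f3]
      field_simp
    rw [f4, mul_smul]
    rfl

/-- `p` equiangular lines spanning `ℂ ^ d`, given by vectors `v i`, `i` in a type with `p` elements,
with entries indexed by a type with `d` elements. -/
theorem lines_mem_sizes {ι κ : Type} [Fintype ι] [Fintype κ] (v : ι → κ → ℂ) (N M : ℝ)
    (hN : 0 < N) (hM0 : 0 ≤ M) (hM : M < N ^ 2) (hnorm : ∀ i, ∑ a, Complex.normSq (v i a) = N)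
    (hinner : ∀ i j, i ≠ j → Complex.normSq (herm (v i) (v j)) = M)
    (hspan : ∀ w : κ → ℂ, (∀ i, herm (v i) w = 0) → w = 0) :
    Fintype.card ι ∈ sizes ℂ 1 (Fintype.card κ) := by
  let e := (Fintype.equivFin ι).symm
  let f := (Fintype.equivFin κ).symm
  have hh : ∀ x y : κ → ℂ, herm (fun a => x (f a)) (fun a => y (f a)) = herm x y := fun x y =>
    Equiv.sum_comp f (fun a => (starRingEnd ℂ) (x a) * y a)
  refine lines_aux (fun i a => v (e i) (f a)) N M hN hM0 hM ?_ ?_ ?_
  · intro i
    rw [← hnorm (e i)]
    exact Equiv.sum_comp f (fun a => Complex.normSq (v (e i) a))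
  · intro i j hij
    rw [hh (v (e i)) (v (e j))]
    exact hinner _ _ (fun h => hij (e.injective h))
  · intro w hw
    have := hspan (fun a => w (f.symm a)) (fun i => by
      rw [← hh]
      have := hw (e.symm i)
      simpa using this)
    funext a
    simpa using congrFun this (f a)

/-- Complex subspaces give real ones. -/
theorem realify (n r : ℕ) : sizes ℂ n r ⊆ sizes ℝ (2 * n) (2 * r) := by
  rintro p ⟨lam, V, h⟩
  have hfin : finrank ℝ (Sp ℂ r) = 2 * r := by
    rw [finrank_real_of_complex]
    have : finrank ℂ (Sp ℂ r) = r := by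
      rw [(WithLp.linearEquiv 2 ℂ (Fin r → ℂ)).finrank_eq]
      simp
    rw [this]
  let e : Sp ℂ r ≃ₗᵢ[ℝ] Sp ℝ (2 * r) :=
    ((stdOrthonormalBasis ℝ (Sp ℂ r)).reindex (finCongr hfin)).repr
  refine ⟨lam, fun i => ((V i).restrictScalars ℝ).map (e.toLinearEquiv : Sp ℂ r →ₗ[ℝ] Sp ℝ (2 * r)),
    h.nonneg, h.lt_one, ?_, ?_, ?_⟩
  · intro i
    rw [LinearEquiv.finrank_map_eq]
    have := finrank_real_of_complex (V i)
    rw [h.rank i] at this
    exact this
  · unfold Spans
    rw [← Submodule.map_iSup, ← Submodule.restrictScalars_iSup]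
    have : ⨆ i, V i = ⊤ := h.span
    rw [this, Submodule.restrictScalars_top, Submodule.map_top, LinearEquiv.range]
  · intro i j hij x y z w h1 h2 h3
    have key : ∀ (i : Fin p) (x y : Sp ℝ (2 * r)),
        IsProj (((V i).restrictScalars ℝ).map (e.toLinearEquiv : Sp ℂ r →ₗ[ℝ] Sp ℝ (2 * r))) x y →
        IsProj (V i) (e.symm x) (e.symm y) := by
      rintro i x y ⟨hy, hxy⟩
      obtain ⟨u, hu, rfl⟩ := hy
      refine ⟨?_, ?_⟩
      · have : e.symm ((e.toLinearEquiv : Sp ℂ r →ₗ[ℝ] Sp ℝ (2 * r)) u) = u := e.symm_apply_apply u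
        rw [this]; exact hu
      · intro t ht
        have := hxy _ (Submodule.mem_map_of_mem (p := (V i).restrictScalars ℝ)
          (f := (e.toLinearEquiv : Sp ℂ r →ₗ[ℝ] Sp ℝ (2 * r))) ht)
        rw [← map_sub, ← e.inner_map_map, e.apply_symm_apply]
        exact this
    have := h.iso i j hij _ _ _ _ (key i x y h1) (key j y z h2) (key i z w h3)
    apply e.symm.injective
    rw [this, map_smul]

end Pool.Agent.H94EI
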