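import Pool.Agent.H32Iso.Defs

set_option autoImplicit false

/-! Blow-ups: `m` copies of an equi-isoclinic family. -/

namespace Pool.Agent.H94EI

open Module Pool.Agent.H32Iso

section

variable {F : Type} [NormedDivisionRing F] [InnerProductSpace ℝ F] {m r : ℕ}

/-- the `k`-th slice of a vector of `F ^ (m r)` -/
noncomputable def slice (k : Fin m) : Sp F (m * r) →ₗ[F] Sp F r where
  toFun x := WithLp.toLp 2 (fun a => x (finProdFinEquiv (k, a)))
  map_add' x y := by ext a; simp
  map_smul' c x := by ext a; simp

theorem slice_apply (k : Fin m) (x : Sp F (m * r)) (a : Fin r) :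
    slice k x a = x (finProdFinEquiv (k, a)) := rfl

/-- the inclusion of the `k`-th copy -/
noncomputable def embed (k : Fin m) : Sp F r →ₗ[F] Sp F (m * r) where
  toFun w := WithLp.toLp 2 (fun b => if (finProdFinEquiv.symm b).1 = k then
    w (finProdFinEquiv.symm b).2 else 0)
  map_add' x y := by
    ext b
    simp only [PiLp.add_apply]
    split_ifs <;> simp
  map_smul' c x := by
    ext b
    simp only [PiLp.smul_apply, RingHom.id_apply]
    split_ifs <;> simp

theorem slice_embed (k l : Fin m) (w : Sp F r) :
    slice k (embed l w) = if k = l then w else 0 := by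
  ext a
  rw [slice_apply]
  simp only [embed, LinearMap.coe_mk, AddHom.coe_mk, Equiv.symm_apply_apply]
  split_ifs <;> simp

theorem ext_slice {x y : Sp F (m * r)} (h : ∀ k, slice k x = slice k y) : x = y := by
  ext b
  have := congrArg (fun z : Sp F r => z (finProdFinEquiv.symm b).2) (h (finProdFinEquiv.symm b).1)
  simp only [slice_apply, Prod.mk.eta, Equiv.apply_symm_apply] at this
  exact this

theorem sum_embed (x : Sp F (m * r)) : ∑ k, embed k (slice k x) = x := by
  apply ext_slice
  intro k
  rw [map_sum]
  simp [slice_embed]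

theorem inner_slice (x y : Sp F (m * r)) :
    inner ℝ x y = ∑ k, inner ℝ (slice k x) (slice k y) := by
  simp only [PiLp.inner_apply, slice_apply]
  rw [← finProdFinEquiv.sum_comp, Fintype.sum_prod_type]

/-- the blown-up subspace -/
noncomputable def blow (m : ℕ) (V : Submodule F (Sp F r)) : Submodule F (Sp F (m * r)) :=
  ⨅ k : Fin m, V.comap (slice k)

theorem mem_blow {V : Submodule F (Sp F r)} {x : Sp F (m * r)} :
    x ∈ blow m V ↔ ∀ k, slice k x ∈ V := by
  simp [blow, Submodule.mem_iInf]

theorem embed_mem {V : Submodule F (Sp F r)} {w : Sp F r} (hw : w ∈ V) (k : Fin m) :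
    embed k w ∈ blow m V := by
  rw [mem_blow]
  intro l
  rw [slice_embed]
  split_ifs
  · exact hw
  · exact V.zero_mem

theorem isProj_slice {V : Submodule F (Sp F r)} {x y : Sp F (m * r)} (h : IsProj (blow m V) x y)
    (k : Fin m) : IsProj V (slice k x) (slice k y) := by
  refine ⟨mem_blow.mp h.1 k, fun w hw => ?_⟩
  have := h.2 _ (embed_mem hw k)
  rw [inner_slice, Finset.sum_eq_single k] at this
  · rwa [slice_embed, if_pos rfl, map_sub] at this
  · intro l _ hl
    rw [slice_embed, if_neg hl, inner_zero_right]
  · intro h'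
    exact absurd (Finset.mem_univ _) h'

theorem finrank_blow [FiniteDimensional F (Sp F r)] (V : Submodule F (Sp F r)) :
    finrank F (blow m V) = m * finrank F V := by
  let e : blow m V ≃ₗ[F] (Fin m → V) :=
    { toFun := fun x k => ⟨slice k x.1, mem_blow.mp x.2 k⟩
      map_add' := fun x y => by
        funext k; ext1; simp
      map_smul' := fun c x => by
        funext k; ext1; simp
      invFun := fun f => ⟨∑ k, embed k (f k).1, Submodule.sum_mem _ fun k _ => embed_mem (f k).2 k⟩
      left_inv := fun x => by
        ext1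
        exact sum_embed x.1
      right_inv := fun f => by
        funext k
        ext1
        show slice k (∑ l, embed l (f l).1) = (f k).1
        rw [map_sum]
        simp [slice_embed] }
  rw [e.finrank_eq, Module.finrank_pi_fintype]
  simp

theorem blow_mem_sizes [FiniteDimensional F (Sp F r)] {n p : ℕ} (hp : p ∈ sizes F n r) :
    p ∈ sizes F (m * n) (m * r) := by
  obtain ⟨lam, V, h⟩ := hp
  refine ⟨lam, fun i => blow m (V i), h.nonneg, h.lt_one, ?_, ?_, ?_⟩
  · intro i
    rw [finrank_blow, h.rank i]
  · unfold Spans
    rw [eq_top_iff]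
    intro x _
    rw [← sum_embed x]
    refine Submodule.sum_mem _ fun k _ => ?_
    have h1 : (⨆ i, V i).map (embed (m := m) k) ≤ ⨆ i, blow m (V i) := by
      rw [Submodule.map_iSup]
      refine iSup_mono fun i => ?_
      rintro _ ⟨w, hw, rfl⟩
      exact embed_mem hw k
    have h2 : ⨆ i, V i = ⊤ := h.span
    rw [h2] at h1
    exact h1 (Submodule.mem_map_of_mem Submodule.mem_top)
  · intro i j hij x y z w h1 h2 h3
    apply ext_slice
    intro k
    have := h.iso i j hij _ _ _ _ (isProj_slice h1 k) (isProj_slice h2 k) (isProj_slice h3 k)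
    rw [this]
    ext a
    simp [slice_apply]

end

end Pool.Agent.H94EI
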